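import Pool.Agent.Helper93_DR.Ore

/-!
# Two-sided distributive rings: completely prime ideals of zero divisors

In a right distributive ring every nonzero `w` gives a completely prime ideal `Z` which contains the
left annihilator of `w` and no right regular element.  For a regular `s` and any `a` write
`x + y = 1`, `a x = s c`, `s y = a d`.  No such `Z` contains both `x` and `d`, and so `Z` contains at
most one of the elements `x + d l` if the differences of the `l` are regular.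
-/

set_option autoImplicit false

namespace Pool.Agent.Helper4_DQ

open MulOpposite
open Pool.Agent.Helper93_DR

variable {B : Type*} [Ring B]

/-- completely prime ideals -/
structure CP (Z : Set B) : Prop where
  zero : (0 : B) ∈ Z
  add : ∀ x ∈ Z, ∀ y ∈ Z, x + y ∈ Z
  left : ∀ r : B, ∀ x ∈ Z, r * x ∈ Z
  right : ∀ x ∈ Z, ∀ r : B, x * r ∈ Z
  prime : ∀ x y : B, x * y ∈ Z → x ∈ Z ∨ y ∈ Z
  one : (1 : B) ∉ Z

theorem CP.sub {Z : Set B} (h : CP Z) {x y : B} (hx : x ∈ Z) (hy : y ∈ Z) : x - y ∈ Z := by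
  have h1 := h.right y hy (-1)
  have h2 := h.add x hx _ h1
  have : x + y * (-1) = x - y := by noncomm_ring
  rwa [this] at h2

/-- at most one of the elements `x + d c` lies in `Z` -/
theorem CP.key {Z : Set B} (h : CP Z) {s a x y d c c' : B} (hxy : x + y = 1) (hsy : s * y = a * d)
    (hs : s ∉ Z) (hc : c - c' ∉ Z) (h1 : x + d * c ∈ Z) (h2 : x + d * c' ∈ Z) : False := by
  have h3 : d * (c - c') ∈ Z := by
    have := h.sub h1 h2
    have e : x + d * c - (x + d * c') = d * (c - c') := by noncomm_ring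
    rwa [e] at this
  rcases h.prime _ _ h3 with hd | hd
  · have hx : x ∈ Z := by
      have := h.sub h1 (h.right d hd c)
      have e : x + d * c - d * c = x := by noncomm_ring
      rwa [e] at this
    have h4 : s * y ∈ Z := by
      rw [hsy]
      exact h.left a d hd
    rcases h.prime _ _ h4 with h5 | h5
    · exact hs h5
    · apply h.one
      rw [← hxy]
      exact h.add x hx y h5
  · exact hc hd

theorem cp_right (hR : RD B) {w : B} (hw : w ≠ 0) :
    ∃ Z : Set B, CP Z ∧ (∀ z, z * w = 0 → z ∈ Z) ∧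
      ∀ t : B, (∀ r : B, t * r = 0 → r = 0) → t ∉ Z := by
  obtain ⟨M, hM, hwM⟩ := exists_MR {r : B | w * r = 0} (mul_zero w)
    (by
      intro x hx y hy
      show w * (x + y) = 0
      have hx' : w * x = 0 := hx
      have hy' : w * y = 0 := hy
      rw [mul_add, hx', hy', add_zero])
    (by
      intro x hx r
      show w * (x * r) = 0
      have hx' : w * x = 0 := hx
      rw [← mul_assoc, hx', zero_mul])
    (by
      intro h
      have h' : w * 1 = 0 := h
      rw [mul_one] at h'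
      exact hw h')
  have hne : ∀ p, p ∉ M → ∀ t, t ∉ M → p * t ∉ M := fun p hp t ht => hM.prime hR hp ht
  refine ⟨{z | ∃ u : B, (∀ t, t ∉ M → u * t ≠ 0) ∧ z * u = 0}, ⟨?_, ?_, ?_, ?_, ?_, ?_⟩, ?_, ?_⟩
  · refine ⟨1, ?_, zero_mul _⟩
    intro t ht h
    apply ht
    rw [one_mul] at h
    rw [h]
    exact hM.zero
  · rintro z ⟨u, hu, hzu⟩ z' ⟨u', hu', hzu'⟩
    obtain ⟨p, q, c, d, h1, h2, h3⟩ := hR u u'
    by_cases hp : p ∈ M
    · have hq : q ∉ M := by
        intro hq
        apply hM.one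
        rw [← h1]
        exact hM.add _ hp _ hq
      refine ⟨u' * q, ?_, ?_⟩
      · intro t ht
        rw [mul_assoc]
        exact hu' _ (hne q hq t ht)
      · rw [add_mul]
        have e1 : z * (u' * q) = 0 := by rw [h3, ← mul_assoc, hzu, zero_mul]
        have e2 : z' * (u' * q) = 0 := by rw [← mul_assoc, hzu', zero_mul]
        rw [e1, e2, add_zero]
    · refine ⟨u * p, ?_, ?_⟩
      · intro t ht
        rw [mul_assoc]
        exact hu _ (hne p hp t ht)
      · rw [add_mul]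
        have e1 : z * (u * p) = 0 := by rw [← mul_assoc, hzu, zero_mul]
        have e2 : z' * (u * p) = 0 := by rw [h2, ← mul_assoc, hzu', zero_mul]
        rw [e1, e2, add_zero]
  · rintro r z ⟨u, hu, hzu⟩
    exact ⟨u, hu, by rw [mul_assoc, hzu, mul_zero]⟩
  · rintro z ⟨u, hu, hzu⟩ r
    obtain ⟨p, q, c, d, h1, h2, h3⟩ := hR r u
    by_cases hp : p ∈ M
    · have hq : q ∉ M := by
        intro hq
        apply hM.one
        rw [← h1]
        exact hM.add _ hp _ hq
      refine ⟨d, ?_, ?_⟩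
      · intro t ht hdt
        apply hu (q * t) (hne q hq t ht)
        rw [← mul_assoc, h3, mul_assoc, hdt, mul_zero]
      · rw [mul_assoc, ← h3, ← mul_assoc, hzu, zero_mul]
    · refine ⟨p, ?_, ?_⟩
      · intro t ht hpt
        apply hne p hp t ht
        rw [hpt]
        exact hM.zero
      · rw [mul_assoc, h2, ← mul_assoc, hzu, zero_mul]
  · rintro z z' ⟨u, hu, hzu⟩
    by_cases h : ∀ t, t ∉ M → z' * u * t ≠ 0
    · left
      exact ⟨z' * u, h, by rw [← mul_assoc]; exact hzu⟩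
    · right
      simp only [not_forall] at h
      obtain ⟨t, ht, h⟩ := h
      have h' : z' * u * t = 0 := not_not.1 h
      refine ⟨u * t, ?_, by rw [← mul_assoc]; exact h'⟩
      intro t' ht'
      rw [mul_assoc]
      exact hu _ (hne t ht t' ht')
  · rintro ⟨u, hu, h⟩
    apply hu 1 hM.one
    rw [mul_one]
    rwa [one_mul] at h
  · intro z hz
    refine ⟨w, ?_, hz⟩
    intro t ht h
    exact ht (hwM h)
  · rintro t ht ⟨u, hu, h⟩
    apply hu 1 hM.one
    rw [mul_one]
    exact ht u h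

theorem cp_left (hL : RD Bᵐᵒᵖ) {w : B} (hw : w ≠ 0) :
    ∃ Z : Set B, CP Z ∧ (∀ z, w * z = 0 → z ∈ Z) ∧
      ∀ t : B, (∀ r : B, r * t = 0 → r = 0) → t ∉ Z := by
  obtain ⟨Z, hZ, h1, h2⟩ := cp_right hL (w := op w) (fun h => hw (op_injective h))
  refine ⟨{z | op z ∈ Z}, ⟨?_, ?_, ?_, ?_, ?_, ?_⟩, ?_, ?_⟩
  · exact hZ.zero
  · intro x hx y hy
    exact hZ.add _ hx _ hy
  · intro r x hx
    exact hZ.right _ hx (op r)
  · intro x hx r
    exact hZ.left (op r) _ hx
  · intro x y hxy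
    exact (hZ.prime (op y) (op x) hxy).symm
  · exact hZ.one
  · intro z hz
    apply h1
    rw [← op_mul, hz, op_zero]
  · intro t ht
    apply h2
    intro r hr
    have := ht r.unop (by
      have := congrArg unop hr
      simpa using this)
    exact unop_injective this

/-- Elements of `(sB : a)` indexed by `C` with independent annihilators. -/
theorem family (hR : RD B) (C : Set B) (hC : ∀ c ∈ C, ∀ c' ∈ C, c ≠ c' → Reg (c - c'))
    (a s : B) (hs : Reg s) :
    ∃ z b : C → B, (∀ i, a * z i = s * b i) ∧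
      (∀ i j, i ≠ j → ∀ w, z i * w = 0 → z j * w = 0 → w = 0) ∧
      (RD Bᵐᵒᵖ → ∀ i j, i ≠ j → ∀ w, w * z i = 0 → w * z j = 0 → w = 0) := by
  obtain ⟨x, y, c, d, h1, h2, h3⟩ := hR a s
  refine ⟨fun i => x + d * i, fun i => c + y * i, ?_, ?_, ?_⟩
  · intro i
    show a * (x + d * (i : B)) = s * (c + y * (i : B))
    rw [mul_add, mul_add, h2, ← mul_assoc, ← mul_assoc, h3]
  · intro i j hij w hi hj
    by_contra hw
    obtain ⟨Z, hZ, h4, h5⟩ := cp_right hR hw
    have hne' : (i : B) ≠ j := fun h => hij (Subtype.ext h)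
    exact hZ.key h1 h3 (h5 s hs.2) (h5 _ (hC i i.2 j j.2 hne').2) (h4 _ hi) (h4 _ hj)
  · intro hL i j hij w hi hj
    by_contra hw
    obtain ⟨Z, hZ, h4, h5⟩ := cp_left hL hw
    have hne' : (i : B) ≠ j := fun h => hij (Subtype.ext h)
    exact hZ.key h1 h3 (h5 s hs.1) (h5 _ (hC i i.2 j j.2 hne').1) (h4 _ hi) (h4 _ hj)

/-- No family of nonzero elements indexed by `ι` generating right ideals with pairwise zero
intersections. -/
def NR (ι B : Type*) [Ring B] : Prop :=
  ¬ ∃ w : ι → B, (∀ i, w i ≠ 0) ∧ ∀ i j, i ≠ j → ∀ r r', w i * r = w j * r' → w i * r = 0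

/-- No family of nonzero elements indexed by `ι` generating left ideals with pairwise zero
intersections. -/
def NL (ι B : Type*) [Ring B] : Prop :=
  ¬ ∃ w : ι → B, (∀ i, w i ≠ 0) ∧ ∀ i j, i ≠ j → ∀ r r', r * w i = r' * w j → r * w i = 0

/-- In a left distributive ring left independence implies right independence. -/
theorem nl_of_nr {ι : Type*} (hL : RD Bᵐᵒᵖ) (h : NR ι B) : NL ι B := by
  rintro ⟨w, hw, hw'⟩
  apply h
  refine ⟨w, hw, ?_⟩
  intro i j hij r r' hr
  obtain ⟨x, y, c, d, h1, h2, h3⟩ := hL (op (w i)) (op (w j))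
  have e1 : x.unop + y.unop = 1 := by
    have := congrArg unop h1
    simpa using this
  have e2 : x.unop * w i = c.unop * w j := by
    have := congrArg unop h2
    simpa using this
  have e3 : y.unop * w j = d.unop * w i := by
    have := congrArg unop h3
    simpa using this
  have e4 : x.unop * w i = 0 := hw' i j hij _ _ e2
  have e5 : y.unop * w j = 0 := hw' j i (Ne.symm hij) _ _ e3
  calc w i * r = (x.unop + y.unop) * (w i * r) := by rw [e1, one_mul]
    _ = x.unop * w i * r + y.unop * (w i * r) := by rw [add_mul, mul_assoc]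
    _ = x.unop * w i * r + y.unop * w j * r' := by rw [hr, mul_assoc y.unop]
    _ = 0 := by rw [e4, e5, zero_mul, zero_mul, add_zero]

/-- An infinite set which is the union of two subsets injects into one of them. -/
theorem split {ι : Type*} [Infinite ι] (P Q : ι → Prop) (h : ∀ i, P i ∨ Q i) :
    (∃ g : ι → ι, Function.Injective g ∧ ∀ i, P (g i)) ∨
    (∃ g : ι → ι, Function.Injective g ∧ ∀ i, Q (g i)) := by
  by_cases hP : Cardinal.mk ι ≤ Cardinal.mk {i // P i}
  · obtain ⟨g⟩ := hP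
    left
    exact ⟨fun i => (g i).1, fun i j hij => g.injective (Subtype.ext hij), fun i => (g i).2⟩
  · right
    by_cases hQ : Cardinal.mk ι ≤ Cardinal.mk {i // Q i}
    · obtain ⟨g⟩ := hQ
      exact ⟨fun i => (g i).1, fun i j hij => g.injective (Subtype.ext hij), fun i => (g i).2⟩
    · exfalso
      have h1 : Cardinal.mk {i // P i} + Cardinal.mk {i // Q i} < Cardinal.mk ι :=
        Cardinal.add_lt_of_lt (Cardinal.aleph0_le_mk ι) (not_le.1 hP) (not_le.1 hQ)
      have h2 : Cardinal.mk ι ≤ Cardinal.mk {i // P i} + Cardinal.mk {i // Q i} := by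
        have h3 := Cardinal.mk_union_le {i | P i} {i | Q i}
        have h4 : ({i | P i} ∪ {i | Q i} : Set ι) = Set.univ := by
          ext i
          simpa using h i
        rw [h4, Cardinal.mk_univ] at h3
        exact h3
      exact absurd h2 (not_le.2 h1)

/-- right Ore condition, infinite index set -/
theorem oreR_inf (hR : RD B) (hL : RD Bᵐᵒᵖ) (C : Set B) (hinf : C.Infinite)
    (hC : ∀ c ∈ C, ∀ c' ∈ C, c ≠ c' → Reg (c - c'))
    (h1 : NR C B) : OreR B := by
  have h2 := nl_of_nr hL h1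
  intro a s hs
  obtain ⟨z, b, hz, hzr, hzl⟩ := family hR C hC a s hs
  have hzl := hzl hL
  by_contra hcon
  have hirr : ∀ i, (∃ w, w ≠ 0 ∧ z i * w = 0) ∨ (∃ w, w ≠ 0 ∧ w * z i = 0) := by
    intro i
    by_contra hi
    rw [not_or] at hi
    apply hcon
    refine ⟨b i, z i, ⟨?_, ?_⟩, hz i⟩
    · intro x hx
      by_contra hx0
      exact hi.2 ⟨x, hx0, hx⟩
    · intro x hx
      by_contra hx0
      exact hi.1 ⟨x, hx0, hx⟩
  have : Infinite C := hinf.to_subtype
  rcases split _ _ hirr with ⟨g, hg, hg'⟩ | ⟨g, hg, hg'⟩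
  · choose w hw hzw using hg'
    apply h1
    refine ⟨w, hw, ?_⟩
    intro i j hij r r' hr
    apply hzr (g i) (g j) (fun h => hij (hg h))
    · rw [← mul_assoc, hzw i, zero_mul]
    · rw [hr, ← mul_assoc, hzw j, zero_mul]
  · choose w hw hzw using hg'
    apply h2
    refine ⟨w, hw, ?_⟩
    intro i j hij r r' hr
    apply hzl (g i) (g j) (fun h => hij (hg h))
    · rw [mul_assoc, hzw i, mul_zero]
    · rw [hr, mul_assoc, hzw j, mul_zero]

/-- right Ore condition, counting pairwise comaximal completely prime ideals -/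
theorem oreR_comax (hR : RD B) (hL : RD Bᵐᵒᵖ) (C : Set B)
    (hC : ∀ c ∈ C, ∀ c' ∈ C, c ≠ c' → Reg (c - c'))
    (h0 : ¬ ∃ Z : C → Set B, (∀ i, CP (Z i)) ∧ ∀ i j, i ≠ j → ∃ u ∈ Z i, ∃ v ∈ Z j, u + v = 1) :
    OreR B := by
  intro a s hs
  obtain ⟨x, y, c, d, h1, h2, h3⟩ := hR a s
  by_contra hcon
  have hirr : ∀ i : C, ∃ Z : Set B, CP Z ∧ x + d * (i : B) ∈ Z ∧ ∀ t, Reg t → t ∉ Z := by
    intro i
    by_contra hi
    apply hcon
    refine ⟨c + y * i, x + d * i, ⟨?_, ?_⟩, ?_⟩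
    · intro w hw
      by_contra hw0
      obtain ⟨Z, hZ, h4, h5⟩ := cp_left hL hw0
      exact hi ⟨Z, hZ, h4 _ hw, fun t ht => h5 t ht.1⟩
    · intro w hw
      by_contra hw0
      obtain ⟨Z, hZ, h4, h5⟩ := cp_right hR hw0
      exact hi ⟨Z, hZ, h4 _ hw, fun t ht => h5 t ht.2⟩
    · rw [mul_add, mul_add, h2, ← mul_assoc, ← mul_assoc, h3]
  choose Z hZ hz hreg using hirr
  apply h0
  refine ⟨Z, hZ, ?_⟩
  have hnot : ∀ i j : C, i ≠ j → ∃ p, p ∈ Z i ∧ p ∉ Z j := by
    intro i j hij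
    by_contra hcon2
    have hne' : (i : B) ≠ j := fun h => hij (Subtype.ext h)
    have h6 : x + d * (i : B) ∈ Z j := by
      by_contra h7
      exact hcon2 ⟨_, hz i, h7⟩
    exact (hZ j).key h1 h3 (hreg j s hs) (hreg j _ (hC i i.2 j j.2 hne')) h6 (hz j)
  intro i j hij
  obtain ⟨p, hp, hp'⟩ := hnot i j hij
  obtain ⟨q, hq, hq'⟩ := hnot j i (Ne.symm hij)
  obtain ⟨α, β, e, f, h4, h5, h6⟩ := hR p q
  refine ⟨β, ?_, α, ?_, by rw [add_comm]; exact h4⟩
  · have h7 : q * β ∈ Z i := by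
      rw [h6]
      exact (hZ i).right p hp f
    rcases (hZ i).prime _ _ h7 with h8 | h8
    · exact absurd h8 hq'
    · exact h8
  · have h7 : p * α ∈ Z j := by
      rw [h5]
      exact (hZ j).right q hq e
    rcases (hZ j).prime _ _ h7 with h8 | h8
    · exact absurd h8 hp'
    · exact h8

theorem CP.pow {Z : Set B} (h : CP Z) {x : B} : ∀ n : ℕ, x ^ n ∈ Z → x ∈ Z := by
  intro n
  induction n with
  | zero =>
    intro hx
    rw [pow_zero] at hx
    exact absurd hx h.one
  | succ n ih =>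
    intro hx
    rw [pow_succ] at hx
    rcases h.prime _ _ hx with h1 | h1
    · exact ih h1
    · exact h1

theorem CP.nil {Z : Set B} (h : CP Z) {x : B} (hx : IsNilpotent x) : x ∈ Z := by
  obtain ⟨n, hn⟩ := hx
  apply h.pow n
  rw [hn]
  exact h.zero

/-- right Ore condition for rings with complements -/
theorem oreR_compl (hR : RD B) (hL : RD Bᵐᵒᵖ)
    (h0 : ∀ x : B, ∃ x' : B, (IsNilpotent (x * x') ∨ IsNilpotent (x' * x)) ∧ Reg (x + x')) :
    OreR B := by
  intro a s hs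
  obtain ⟨x, y, c, d, h1, h2, h3⟩ := hR a s
  obtain ⟨x', hx', hreg⟩ := h0 x
  have key : ∀ Z : Set B, CP Z → (∀ t, Reg t → t ∉ Z) → x + d * x' ∉ Z := by
    intro Z hZ ht hz
    have h4 : x ∈ Z ∨ x' ∈ Z := by
      rcases hx' with h4 | h4
      · exact hZ.prime _ _ (hZ.nil h4)
      · exact (hZ.prime _ _ (hZ.nil h4)).symm
    have h5 : x ∈ Z := by
      rcases h4 with h5 | h5
      · exact h5
      · have := hZ.sub hz (hZ.left d _ h5)
        rwa [add_sub_cancel_right] at this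
    have h6 : d * x' ∈ Z := by
      have := hZ.sub hz h5
      rwa [add_sub_cancel_left] at this
    rcases hZ.prime _ _ h6 with h7 | h7
    · have h8 : s * y ∈ Z := by
        rw [h3]
        exact hZ.left a d h7
      rcases hZ.prime _ _ h8 with h9 | h9
      · exact ht s hs h9
      · apply hZ.one
        rw [← h1]
        exact hZ.add x h5 y h9
    · exact ht _ hreg (hZ.add x h5 x' h7)
  refine ⟨c + y * x', x + d * x', ⟨?_, ?_⟩, ?_⟩
  · intro w hw
    by_contra hw0
    obtain ⟨Z, hZ, h4, h5⟩ := cp_left hL hw0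
    exact key Z hZ (fun t ht => h5 t ht.1) (h4 _ hw)
  · intro w hw
    by_contra hw0
    obtain ⟨Z, hZ, h4, h5⟩ := cp_right hR hw0
    exact key Z hZ (fun t ht => h5 t ht.2) (h4 _ hw)
  · rw [mul_add, mul_add, h2, ← mul_assoc, ← mul_assoc, h3]

/-! ### passing to the opposite ring -/

theorem rd_opop (h : RD B) : RD Bᵐᵒᵖᵐᵒᵖ := by
  intro u v
  obtain ⟨x, y, c, d, h1, h2, h3⟩ := h u.unop.unop v.unop.unop
  refine ⟨op (op x), op (op y), op (op c), op (op d), ?_, ?_, ?_⟩
  · rw [← op_add, ← op_add, h1]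
    rfl
  · apply unop_injective
    apply unop_injective
    exact h2
  · apply unop_injective
    apply unop_injective
    exact h3

theorem nr_op {C : Set B} (h : NL C B) : NR (unop ⁻¹' C : Set Bᵐᵒᵖ) Bᵐᵒᵖ := by
  rintro ⟨w, hw, hw'⟩
  apply h
  refine ⟨fun i => (w ⟨op i.1, i.2⟩).unop, ?_, ?_⟩
  · intro i h0
    exact hw ⟨op i.1, i.2⟩ (unop_injective h0)
  · intro i j hij r r' hr
    have h1 := hw' ⟨op i.1, i.2⟩ ⟨op j.1, j.2⟩ (fun h2 => hij (Subtype.ext (by
      have h3 := congrArg Subtype.val h2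
      exact op_injective h3))) (op r) (op r') (unop_injective hr)
    exact congrArg unop h1

theorem nl_op {C : Set B} (h : NR C B) : NL (unop ⁻¹' C : Set Bᵐᵒᵖ) Bᵐᵒᵖ := by
  rintro ⟨w, hw, hw'⟩
  apply h
  refine ⟨fun i => (w ⟨op i.1, i.2⟩).unop, ?_, ?_⟩
  · intro i h0
    exact hw ⟨op i.1, i.2⟩ (unop_injective h0)
  · intro i j hij r r' hr
    have h1 := hw' ⟨op i.1, i.2⟩ ⟨op j.1, j.2⟩ (fun h2 => hij (Subtype.ext (by
      have h3 := congrArg Subtype.val h2
      exact op_injective h3))) (op r) (op r') (unop_injective hr)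
    exact congrArg unop h1

theorem cp_op {Z : Set Bᵐᵒᵖ} (hZ : CP Z) : CP {z : B | op z ∈ Z} := by
  refine ⟨?_, ?_, ?_, ?_, ?_, ?_⟩
  · exact hZ.zero
  · intro x hx y hy
    exact hZ.add _ hx _ hy
  · intro r x hx
    exact hZ.right _ hx (op r)
  · intro x hx r
    exact hZ.left (op r) _ hx
  · intro x y hxy
    exact (hZ.prime (op y) (op x) hxy).symm
  · exact hZ.one

theorem comax_op {C : Set B}
    (h0 : ¬ ∃ Z : C → Set B, (∀ i, CP (Z i)) ∧ ∀ i j, i ≠ j → ∃ u ∈ Z i, ∃ v ∈ Z j, u + v = 1) :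
    ¬ ∃ Z : (unop ⁻¹' C : Set Bᵐᵒᵖ) → Set Bᵐᵒᵖ, (∀ i, CP (Z i)) ∧
      ∀ i j, i ≠ j → ∃ u ∈ Z i, ∃ v ∈ Z j, u + v = 1 := by
  rintro ⟨Z, hZ, hZ'⟩
  apply h0
  refine ⟨fun i => {z : B | op z ∈ Z ⟨op i.1, i.2⟩}, fun i => cp_op (hZ _), ?_⟩
  intro i j hij
  obtain ⟨u, hu, v, hv, huv⟩ := hZ' ⟨op i.1, i.2⟩ ⟨op j.1, j.2⟩ (fun h2 => hij (Subtype.ext (by
      have h3 := congrArg Subtype.val h2
      exact op_injective h3)))
  refine ⟨u.unop, ?_, v.unop, ?_, ?_⟩
  · exact hu
  · exact hv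
  · have := congrArg unop huv
    simpa using this

theorem diff_op {C : Set B} (hC : ∀ c ∈ C, ∀ c' ∈ C, c ≠ c' → Reg (c - c')) :
    ∀ c ∈ (unop ⁻¹' C : Set Bᵐᵒᵖ), ∀ c' ∈ (unop ⁻¹' C : Set Bᵐᵒᵖ), c ≠ c' → Reg (c - c') := by
  intro c hc c' hc' h
  have h1 := hC c.unop hc c'.unop hc' (fun h2 => h (unop_injective h2))
  have h2 := reg_op.2 h1
  rwa [op_sub, op_unop, op_unop] at h2

theorem compl_op
    (h0 : ∀ x : B, ∃ x' : B, (IsNilpotent (x * x') ∨ IsNilpotent (x' * x)) ∧ Reg (x + x')) :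
    ∀ x : Bᵐᵒᵖ, ∃ x' : Bᵐᵒᵖ, (IsNilpotent (x * x') ∨ IsNilpotent (x' * x)) ∧ Reg (x + x') := by
  intro x
  have hop : ∀ t : B, IsNilpotent t → IsNilpotent (op t) := by
    rintro t ⟨n, hn⟩
    exact ⟨n, by rw [← op_pow, hn, op_zero]⟩
  obtain ⟨x', h1, h3⟩ := h0 x.unop
  refine ⟨op x', ?_, ?_⟩
  · rcases h1 with h1 | h1
    · right
      have := hop _ h1
      rwa [op_mul, op_unop] at this
    · left
      have := hop _ h1
      rwa [op_mul, op_unop] at this
  · have := reg_op.2 h3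
    rwa [op_add, op_unop] at this

/-! ### linear independence -/

theorem linInd {R K A ι : Type*} [Ring R] [AddCommGroup A] [Module R A] [Field K] [Module K A]
    (hd : ∀ a b c : Submodule R A, a ⊓ (b ⊔ c) = a ⊓ b ⊔ a ⊓ c)
    (hk : ∀ (N : Submodule R A) (k : K) (v : A), v ∈ N → k • v ∈ N) (f : ι → Submodule R A)
    (hf : ∀ i j, i ≠ j → f i ⊓ f j = ⊥) (w : ι → A) (hw : ∀ i, w i ∈ f i) (hw0 : ∀ i, w i ≠ 0) :
    LinearIndependent K w := by
  classical
  have h1 : ∀ (i : ι) (S : Finset ι), i ∉ S → f i ⊓ S.sup f = ⊥ := by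
    intro i S
    induction S using Finset.induction with
    | empty => intro _; simp
    | insert j S hj ih =>
      intro hi
      rw [Finset.mem_insert, not_or] at hi
      rw [Finset.sup_insert, hd, hf i j hi.1, ih hi.2, bot_sup_eq]
  rw [linearIndependent_iff']
  intro S g hg i hi
  by_contra hgi
  have h2 : g i • w i = - ∑ j ∈ S.erase i, g j • w j := by
    rw [← Finset.add_sum_erase S _ hi] at hg
    exact eq_neg_of_add_eq_zero_left hg
  have h3 : g i • w i ∈ (S.erase i).sup f := by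
    rw [h2]
    apply Submodule.neg_mem
    apply Submodule.sum_mem
    intro j hj
    exact (Finset.le_sup (f := f) hj) (hk _ _ _ (hw j))
  have h4 : g i • w i ∈ f i ⊓ (S.erase i).sup f := ⟨hk _ _ _ (hw i), h3⟩
  rw [h1 i _ (Finset.notMem_erase i S)] at h4
  have h5 : g i • w i = 0 := h4
  rcases smul_eq_zero.1 h5 with h6 | h6
  · exact hgi h6
  · exact hw0 i h6

end Pool.Agent.Helper4_DQ
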